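import Pool.Agent.H8.AV3.Stmts4

set_option autoImplicit false
set_option linter.all false

namespace Pool.AV3.LOP

open Polynomial Matrix Pool.AVR

theorem nE_equiv {R R' : Type} [CommRing R] [CommRing R'] (e : R ≃+* R') (a b c : R) :
    AVS.nE R' (e a) (e b) (e c) = AVS.nE R a b c := by
  unfold AVS.nE
  have h : {p : R' × R' | p.2 ^ 2 = p.1 ^ 3 + e a * p.1 ^ 2 + e b * p.1 + e c} =
      (fun p : R × R => (e p.1, e p.2)) ''
        {p : R × R | p.2 ^ 2 = p.1 ^ 3 + a * p.1 ^ 2 + b * p.1 + c} := by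
    ext ⟨x, y⟩
    constructor
    · intro h
      refine ⟨(e.symm x, e.symm y), ?_, by simp⟩
      apply e.injective
      simp only [map_pow, map_add, map_mul, RingEquiv.apply_symm_apply]
      exact h
    · rintro ⟨⟨x', y'⟩, h, h2⟩
      have h3 := Prod.mk.inj h2
      rw [← h3.1, ← h3.2]
      have h4 := congrArg e h
      simp only [map_pow, map_add, map_mul] at h4
      exact h4
  rw [h]
  refine Set.ncard_image_of_injective _ ?_
  rintro ⟨x, y⟩ ⟨x', y'⟩ h1
  have h3 := Prod.mk.inj h1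
  exact Prod.ext (e.injective h3.1) (e.injective h3.2)

theorem disc_map {R R' : Type} [CommRing R] [CommRing R'] (φ : R →+* R') (a b c : R) :
    φ (disc a b c) = disc (φ a) (φ b) (φ c) := by
  simp only [disc, map_sub, map_add, map_mul, map_pow, map_ofNat]

theorem card_adj {F : Type} [Field F] [Finite F] {P : F[X]} (hP : P.Monic) :
    Nat.card (AdjoinRoot P) = Nat.card F ^ P.natDegree := by
  have hf : Module.Finite F (AdjoinRoot P) := hP.finite_adjoinRoot
  rw [Module.natCard_eq_pow_finrank (K := F) (V := AdjoinRoot P)]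
  rw [(AdjoinRoot.powerBasis' hP).finrank]
  rfl

end Pool.AV3.LOP

namespace Pool.AV3

open Polynomial Matrix Pool.AVR LOP

theorem lop_thm (hSEC : SECStmt) (hLUG3 : LUG3Stmt) (hRIP : AVS.RIPStmt) : LOPStmt := by
  classical
  intro F _ _ h2 f hf c hc P hPm hPi N hN
  obtain ⟨L, _, O, ι, hι, hcls⟩ := ((hSEC F h2 f).1 c hc).1 P hPm hPi
  have hmem : ∀ p : F[X], ι (algebraMap F[X] (RatFunc F) p) ∈ O := by
    intro p
    rw [hι.mem]
    show ¬ P ∣ _
    rw [RatFunc.denom_algebraMap]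
    intro h1
    exact hPi.not_isUnit (isUnit_of_dvd_one h1)
  obtain ⟨hk1, hk2, hk3⟩ := hRIP F P hPm hPi L O ι hι
  set a : O := ⟨ι (algebraMap F[X] (RatFunc F) f.1), hmem f.1⟩ with hadef
  set b : O := ⟨ι (algebraMap F[X] (RatFunc F) f.2.1), hmem f.2.1⟩ with hbdef
  set c' : O := ⟨ι (algebraMap F[X] (RatFunc F) f.2.2), hmem f.2.2⟩ with hcdef
  have hdisc0 : disc a b c' ≠ 0 := by
    intro h0
    have h1 := congrArg (O.subtype) h0
    rw [disc_map, map_zero] at h1
    have h3 : disc (O.subtype a) (O.subtype b) (O.subtype c') =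
        ι (algebraMap F[X] (RatFunc F) (dsc f)) := by
      rw [dsc, disc_map, disc_map]
      rfl
    rw [h3] at h1
    apply hf
    have h4 := (map_eq_zero ι).1 h1
    exact (map_eq_zero_iff _ (RatFunc.algebraMap_injective F)).1 h4
  obtain ⟨hL1, hL2⟩ := hLUG3 F (AVS.IP P) _ L O ι hι a b c' hdisc0 c hcls
  have hκ : 0 < Nat.card (AdjoinRoot P) := by
    rw [card_adj hPm]
    exact pow_pos Nat.card_pos _
  by_cases hd : P ^ N ∣ dsc f
  · refine ⟨1, hL1, le_rfl, ?_⟩
    rw [Bx, if_pos hd]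
    simp
  · obtain ⟨e, he⟩ := hk3 N
    have hdisc : disc a b c' ∉ (IsLocalRing.maximalIdeal O) ^ N := by
      intro h1
      have h2 : Ideal.Quotient.mk ((IsLocalRing.maximalIdeal O) ^ N) (disc a b c') = 0 :=
        Ideal.Quotient.eq_zero_iff_mem.2 h1
      have h3 := congrArg e h2
      rw [map_zero, disc_map, ← RingEquiv.coe_toRingHom, disc_map] at h3
      rw [RingEquiv.coe_toRingHom, he, he, he, ← disc_map, AdjoinRoot.mk_eq_zero] at h3
      exact hd h3
    obtain ⟨M, hM, hle⟩ := hL2 N hdisc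
    rw [hk1, ← hk2, ← nE_equiv e, he, he, he] at hle
    have hpos : 0 < Nat.card (AdjoinRoot P) ^ (N - 1) := pow_pos hκ _
    have hM1 : 1 ≤ M := by
      rcases Nat.eq_zero_or_pos M with h0 | h0
      · rw [h0, zero_mul] at hle
        omega
      · exact h0
    refine ⟨M, hM, hM1, ?_⟩
    rw [Bx, if_neg hd, Bw]
    have hκ1 : (0 : ℝ) ≤ (Nat.card (AdjoinRoot P) : ℝ) - 1 := by
      have : (1 : ℝ) ≤ (Nat.card (AdjoinRoot P) : ℝ) := by exact_mod_cast hκ
      linarith
    apply mul_le_mul_of_nonneg_left _ hκ1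
    have hcard : Nat.card (AdjoinRoot (P ^ N)) = Nat.card (AdjoinRoot P) *
        Nat.card (AdjoinRoot P) ^ (N - 1) := by
      rw [card_adj (hPm.pow N), card_adj hPm, hPm.natDegree_pow, ← pow_succ', Nat.sub_add_cancel hN,
        mul_comm, pow_mul]
    have hle' : (nET (md3 (P ^ N) f) : ℝ) + (Nat.card (AdjoinRoot P) : ℝ) ^ (N - 1) ≤
        M * (Nat.card (AdjoinRoot P) : ℝ) ^ (N - 1) := by
      have : nET (md3 (P ^ N) f) + Nat.card (AdjoinRoot P) ^ (N - 1) ≤
        M * Nat.card (AdjoinRoot P) ^ (N - 1) := hle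
      exact_mod_cast this
    have hk : (0 : ℝ) < (Nat.card (AdjoinRoot P) : ℝ) := by exact_mod_cast hκ
    have hkp : (0 : ℝ) < (Nat.card (AdjoinRoot P) : ℝ) ^ (N - 1) := pow_pos hk _
    rw [hcard]
    push_cast
    rw [mul_div_mul_left _ _ hk.ne']
    have h5 : (nET (md3 (P ^ N) f) : ℝ) / (Nat.card (AdjoinRoot P) : ℝ) ^ (N - 1) ≤ M - 1 := by
      rw [div_le_iff₀ hkp]
      linarith
    linarith

end Pool.AV3
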