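import Pool.Agent.H8.AV3.Stmts4
import Pool.Agent.H17.AVS.KYS

set_option autoImplicit false
set_option linter.all false

namespace Pool.AV3

open Polynomial Matrix Pool.AVR

theorem kys3_thm (hGLB3 : GLB3Stmt) (hLOP : LOPStmt) (hLOI : LOIStmt) (hSEC : SECStmt)
    (hVDI : VDIStmt) (hDVP : DVPStmt) : KYS3Stmt := by
  classical
  intro F _ _ h2 n f hf c hc
  have hd : dsc f ≠ 0 := hf.2
  obtain ⟨S, hS, hbad⟩ := AVS.KYS.exists_bad ((List.finRange 10).map c)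
  have hloc : ∀ P : F[X], ∃ g : Matrix (Fin 3) (Fin 3) (RatFunc F), (P.Monic ∧ Irreducible P) →
      (g.det ≠ 0 ∧ ∀ i, tsub c g i / g.det ∈ AVS.IP P) := by
    intro P
    by_cases hp : P.Monic ∧ Irreducible P
    · obtain ⟨M, ⟨g, v, hg, -⟩, hM, -⟩ := hLOP F h2 f hd c hc P hp.1 hp.2 1 le_rfl
      exact ⟨g ⟨0, hM⟩, fun _ => ⟨(hg ⟨0, hM⟩).1, (hg ⟨0, hM⟩).2.1⟩⟩
    · exact ⟨1, fun h => absurd h hp⟩
  choose gP hgP using hloc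
  obtain ⟨M, ⟨gi, vi, hgi, -⟩, hM, -⟩ := hLOI F h2 n f hf c hc 1 le_rfl
  obtain ⟨α, β, c', g, κ, k, hc', hE, -⟩ := hGLB3 F n c S gP (gi ⟨0, hM⟩) hS
    (fun P hP => hgP P (hS P hP))
    (fun P h1 h3 h4 i => hbad P h1 h3 h4 (c i) (List.mem_map.2 ⟨i, List.mem_finRange i, rfl⟩))
    (hgi ⟨0, hM⟩).1 (hgi ⟨0, hM⟩).2.1
  exact ⟨α, β, c', g, hc', hE, (hSEC F h2 f).2.1 c (mp c') hc ⟨g, hE⟩⟩

end Pool.AV3
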