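import Pool.Agent.H8.AV3.Stmts4

set_option autoImplicit false
set_option linter.all false

namespace Pool.AV3

open Polynomial Matrix Pool.AVR

theorem VDI.intDegree_X_zpow {F : Type} [Field F] (k : ℤ) :
    ((RatFunc.X : RatFunc F) ^ k).intDegree = k := by
  have hn : ∀ m : ℕ, ((RatFunc.X : RatFunc F) ^ m).intDegree = m := by
    intro m
    rw [← RatFunc.algebraMap_X, ← map_pow, RatFunc.intDegree_polynomial, natDegree_X_pow]
  obtain ⟨m, rfl | rfl⟩ := k.eq_nat_or_neg
  · rw [zpow_natCast, hn]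
  · rw [_root_.zpow_neg, zpow_natCast, RatFunc.intDegree_inv, hn]

theorem VDI.tsub_diag {R : Type} [CommRing R] (c : Fin 10 → R) (δ : Fin 3 → R) (i : Fin 10) :
    tsub c (Matrix.diagonal δ) i = c i * (δ (tr i 0) * δ (tr i 1) * δ (tr i 2)) := by
  have h00 : (Matrix.diagonal δ) 0 0 = δ 0 := Matrix.diagonal_apply_eq _ _
  have h11 : (Matrix.diagonal δ) 1 1 = δ 1 := Matrix.diagonal_apply_eq _ _
  have h22 : (Matrix.diagonal δ) 2 2 = δ 2 := Matrix.diagonal_apply_eq _ _
  have h01 : (Matrix.diagonal δ) 0 1 = 0 := Matrix.diagonal_apply_ne _ (by decide)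
  have h02 : (Matrix.diagonal δ) 0 2 = 0 := Matrix.diagonal_apply_ne _ (by decide)
  have h10 : (Matrix.diagonal δ) 1 0 = 0 := Matrix.diagonal_apply_ne _ (by decide)
  have h12 : (Matrix.diagonal δ) 1 2 = 0 := Matrix.diagonal_apply_ne _ (by decide)
  have h20 : (Matrix.diagonal δ) 2 0 = 0 := Matrix.diagonal_apply_ne _ (by decide)
  have h21 : (Matrix.diagonal δ) 2 1 = 0 := Matrix.diagonal_apply_ne _ (by decide)
  fin_cases i <;>
    simp only [tsub, tev, tder, tr, h00, h11, h22, h01, h02, h10, h12, h20, h21,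
      Fin.zero_eta, Fin.mk_one, Fin.reduceFinMk, Fin.isValue, Matrix.cons_val] <;> ring

theorem vdi_thm : VDIStmt := by
  intro F _ n d c
  refine ⟨?_, ?_, ?_⟩
  · have key : ∀ i, (cI n d c i ∈ AVS.Iinf F ↔ (c i ≠ 0 → ((c i).natDegree : ℤ) ≤ ee n d i)) := by
      intro i
      show (cI n d c i).intDegree ≤ 0 ↔ _
      unfold cI
      by_cases h : c i = 0
      · simp [h]
      · have h1 : algebraMap F[X] (RatFunc F) (c i) ≠ 0 := by simpa using h
        have h2 : (RatFunc.X : RatFunc F) ^ ee n d i ≠ 0 := zpow_ne_zero _ RatFunc.X_ne_zero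
        rw [div_eq_mul_inv, RatFunc.intDegree_mul h1 (inv_ne_zero h2), RatFunc.intDegree_inv,
          RatFunc.intDegree_polynomial, VDI.intDegree_X_zpow]
        constructor
        · intro h3 _
          linarith
        · intro h3
          have := h3 h
          linarith
    constructor
    · intro h i
      exact (key i).2 (h i)
    · intro h i
      exact (key i).1 (h i)
  · intro i
    have hX : (RatFunc.X : RatFunc F) ≠ 0 := RatFunc.X_ne_zero
    have hinv : (Dg (F := F) d)⁻¹ = Matrix.diagonal fun i => (RatFunc.X : RatFunc F) ^ (-d i) := by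
      apply Matrix.inv_eq_right_inv
      rw [Dg, Matrix.diagonal_mul_diagonal, ← Matrix.diagonal_one]
      congr 1
      funext j
      rw [← zpow_add₀ hX, add_neg_cancel, zpow_zero]
    have hts : tsub (((RatFunc.X : RatFunc F) ^ n)⁻¹ • mp c) (Dg (F := F) d)⁻¹ i =
        ((RatFunc.X : RatFunc F) ^ n)⁻¹ * algebraMap F[X] (RatFunc F) (c i) *
          ∏ s, (RatFunc.X : RatFunc F) ^ (-d (tr i s)) := by
      rw [hinv, VDI.tsub_diag, Fin.prod_univ_three]
      rfl
    have hdet : ((Dg (F := F) d)⁻¹).det = ∏ j, (RatFunc.X : RatFunc F) ^ (-d j) := by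
      rw [hinv, Matrix.det_diagonal]
    rw [hts, hdet]
    simp only [cI, ee, Fin.prod_univ_three, Fin.sum_univ_three]
    have e1 : (RatFunc.X : RatFunc F) ^ ((n : ℤ) + (d (tr i 0) + d (tr i 1) + d (tr i 2)) -
        (d 0 + d 1 + d 2)) = (RatFunc.X : RatFunc F) ^ n * (RatFunc.X ^ (d (tr i 0)) *
          RatFunc.X ^ (d (tr i 1)) * RatFunc.X ^ (d (tr i 2))) /
            (RatFunc.X ^ d 0 * RatFunc.X ^ d 1 * RatFunc.X ^ d 2) := by
      rw [zpow_sub₀ hX, zpow_add₀ hX, zpow_add₀ hX, zpow_add₀ hX, zpow_add₀ hX, zpow_add₀ hX,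
        zpow_natCast]
    rw [e1]
    have hz : ∀ k : ℤ, (RatFunc.X : RatFunc F) ^ k ≠ 0 := fun k => zpow_ne_zero _ hX
    have hn : (RatFunc.X : RatFunc F) ^ n ≠ 0 := pow_ne_zero _ hX
    simp only [_root_.zpow_neg]
    have z0 := hz (d 0)
    have z1 := hz (d 1)
    have z2 := hz (d 2)
    have y0 := hz (d (tr i 0))
    have y1 := hz (d (tr i 1))
    have y2 := hz (d (tr i 2))
    generalize (RatFunc.X : RatFunc F) ^ (d (tr i 0)) = A at *
    generalize (RatFunc.X : RatFunc F) ^ (d (tr i 1)) = B at *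
    generalize (RatFunc.X : RatFunc F) ^ (d (tr i 2)) = C' at *
    generalize (RatFunc.X : RatFunc F) ^ (d 0) = D at *
    generalize (RatFunc.X : RatFunc F) ^ (d 1) = E at *
    generalize (RatFunc.X : RatFunc F) ^ (d 2) = G at *
    generalize (RatFunc.X : RatFunc F) ^ n = H at *
    field_simp
  · intro P hP i
    show ¬ P ∣ _
    rw [mp, RatFunc.denom_algebraMap]
    intro h1
    exact hP.not_isUnit (isUnit_of_dvd_one h1)

end Pool.AV3
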