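import Pool.Agent.H8.AV3.Stmts

set_option autoImplicit false
set_option linter.all false

namespace Pool.Agent.H17.AV3

open Polynomial Matrix Pool.AV3 Pool.AVR

/-- A point of the curve is nonsingular. -/
theorem nonsing_of_onC {K : Type} [Field K] (h2 : (2 : K) ≠ 0) {a b c : K}
    (hs : (cub a b c).Separable) {x y : K} (h : OnC a b c x y) :
    (E a b c).toAffine.Nonsingular x y := by
  rw [WeierstrassCurve.Affine.nonsingular_iff, WeierstrassCurve.Affine.equation_iff]
  simp only [E, WeierstrassCurve.toAffine]
  unfold OnC at h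
  refine ⟨by linear_combination h, ?_⟩
  by_contra hcon
  push Not at hcon
  obtain ⟨hx, hy⟩ := hcon
  have hy0 : y = 0 := by
    have : 2 * y = 0 := by linear_combination hy
    exact (mul_eq_zero.1 this).resolve_left h2
  have hd : 3 * x ^ 2 + 2 * a * x + b = 0 := by linear_combination -hx
  have hf : x ^ 3 + a * x ^ 2 + b * x + c = 0 := by rw [← h, hy0]; ring
  obtain ⟨u, v, huv⟩ := hs
  have := congrArg (Polynomial.eval x) huv
  simp only [cub, Polynomial.eval_add, Polynomial.eval_mul, Polynomial.eval_pow,
    Polynomial.eval_X, Polynomial.eval_C, Polynomial.derivative_add, Polynomial.derivative_mul,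
    Polynomial.derivative_pow, Polynomial.derivative_X, Polynomial.derivative_C,
    Polynomial.eval_one, Polynomial.eval_zero] at this
  simp at this
  have e1 : x ^ 3 + a * x ^ 2 + b * x + c = 0 := hf
  have : (0 : K) = 1 := by
    rw [← this]
    linear_combination (-(eval x u)) * e1 - (eval x v) * hd
  exact zero_ne_one this

theorem stb_thm (hINJ : Pool.AV3.INJStmt) : Pool.AV3.STBStmt := by
  intro K _ _ _ h2 a b c hs ht h3 x y hxy g hg
  have hns := nonsing_of_onC h2 hs hxy
  obtain ⟨T, η, h'', ha, hb, hc, hT, -, hu⟩ := hINJ K h2 a b c a b c hs x y hns x y hxy g hg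
  have hη : η = 0 := by
    have h3η : 3 * η = 0 := by linear_combination -ha
    by_cases h30 : (3 : K) = 0
    · have ha0 : a ≠ 0 := h3.resolve_left (not_not.2 h30)
      have h4 : 2 * a * η = 0 := by linear_combination -hb - η * h3η
      exact (mul_eq_zero.1 h4).resolve_left (mul_ne_zero h2 ha0)
    · exact (mul_eq_zero.1 h3η).resolve_left h30
  subst hη
  have hT0 : T + T + T = 0 := by
    have e : (WeierstrassCurve.Affine.Point.some (x + 0) y h'' : Pt a b c) =
        WeierstrassCurve.Affine.Point.some x y hns := by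
      simp only [add_zero]
    rw [e, sub_eq_self] at hT
    exact hT
  obtain ⟨r, hr, hgr⟩ := hu (ht T hT0)
  refine ⟨r, hr, ?_⟩
  rw [hgr]
  ext i j
  fin_cases i <;> fin_cases j <;> simp [uni]

end Pool.Agent.H17.AV3
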